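import Mathlib
import Pool.Agent.H78.Dis.Defs

set_option autoImplicit false
open Finset Fintype

/-!
# MP_c9b280_co: purity

A copy of `H` in a structured graph either uses no edge inside the far part or lies inside the far
part.
-/

namespace H78D

open H67Blow (num injs)

section

variable {X : Type} [Fintype X] [DecidableEq X] {K : SimpleGraph X} {L : Finset X}
  {lev a : X → ℕ}

lemma mem_injs {V U : Type*} [Fintype V] [Fintype U] {H : SimpleGraph U} {G : SimpleGraph V}
    {f : U → V} : f ∈ injs H G ↔ Function.Injective f ∧ ∀ p q, H.Adj p q → G.Adj (f p) (f q) := by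
  classical
  unfold injs
  rw [mem_filter]
  exact ⟨fun h => h.2, fun h => ⟨mem_univ _, h⟩⟩

/-- A triangle with two vertices in the far part has its third vertex in the far part. -/
lemma third (hG : Good K L lev a) {V : Type} {G : SimpleGraph V} {τ : V → X}
    (hS : Str K L G τ) {u v w : V} (h1 : G.Adj u v) (h2 : G.Adj u w) (h3 : G.Adj v w)
    (hu : τ u ∈ L) (hv : τ v ∈ L) : τ w ∈ L := by
  by_contra hw
  have e1 : K.Adj (τ u) (τ w) := (hS.2 u w h2).resolve_right fun h => hw h.2.2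
  have e2 : K.Adj (τ v) (τ w) := (hS.2 v w h3).resolve_right fun h => hw h.2.2
  have e3 : τ u ≠ τ v := by
    rcases hS.2 u v h1 with h | h
    · exact absurd h (hG.farNonadj _ hu _ hv)
    · exact h.1
  exact hG.far _ hu _ hv e3 _ e1.symm e2.symm

/-- A copy which uses an edge of the far part is contained in the far part. -/
lemma all_far (hG : Good K L lev a) {W : ℕ} {V : Type} {G : SimpleGraph V} {τ : V → X}
    (hS : Str K L G τ) {f : HV a W → V}
    (hf : ∀ p q, (HG K a W).Adj p q → G.Adj (f p) (f q)) {p q : HV a W}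
    (hpq : (HG K a W).Adj p q) (hp : τ (f p) ∈ L) (hq : τ (f q) ∈ L) : ∀ r, τ (f r) ∈ L := by
  have key : ∀ c : (∀ r : X × Fin 3, (Fin (W * a r.1) ⊕ Fin 3)), ∀ r s, (HR K).Adj r s →
      τ (f ⟨r, c r⟩) ∈ L → τ (f ⟨s, c s⟩) ∈ L → ∀ t, τ (f ⟨t, c t⟩) ∈ L := by
    intro c
    exact hG.tc (fun r => τ (f ⟨r, c r⟩) ∈ L) fun r s t h1 h2 h3 hr hs =>
      third hG hS (hf ⟨r, c r⟩ ⟨s, c s⟩ h1) (hf ⟨r, c r⟩ ⟨t, c t⟩ h2)
        (hf ⟨s, c s⟩ ⟨t, c t⟩ h3) hr hs
  obtain ⟨r0, i⟩ := p
  obtain ⟨s0, j⟩ := q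
  have hne : s0 ≠ r0 := fun h => (HR K).ne_of_adj (show (HR K).Adj r0 s0 from hpq) h.symm
  obtain ⟨z, w, hzw, z1, z2, w1, w2⟩ := hG.avoid r0.1 s0.1
  have step1 : ∀ t : X × Fin 3, t ≠ r0 → t ≠ s0 → ∀ k, τ (f ⟨t, k⟩) ∈ L := by
    intro t ht1 ht2 k
    set c : ∀ r : X × Fin 3, (Fin (W * a r.1) ⊕ Fin 3) :=
      Function.update (Function.update (Function.update (fun r => Sum.inr 0) r0 i) s0 j) t k
      with hc
    have c1 : c r0 = i := by
      rw [hc, Function.update_of_ne ht1.symm, Function.update_of_ne hne.symm,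
        Function.update_self]
    have c2 : c s0 = j := by
      rw [hc, Function.update_of_ne ht2.symm, Function.update_self]
    have c3 : c t = k := by rw [hc, Function.update_self]
    have h1 := key c r0 s0 hpq (by rw [c1]; exact hp) (by rw [c2]; exact hq) t
    rw [c3] at h1
    exact h1
  have hz : ∀ k, τ (f ⟨((z, 0) : X × Fin 3), k⟩) ∈ L :=
    step1 _ (fun h => z1 (congrArg Prod.fst h)) (fun h => z2 (congrArg Prod.fst h))
  have hw : ∀ k, τ (f ⟨((w, 1) : X × Fin 3), k⟩) ∈ L :=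
    step1 _ (fun h => w1 (congrArg Prod.fst h)) (fun h => w2 (congrArg Prod.fst h))
  rintro ⟨t, k⟩
  set c : ∀ r : X × Fin 3, (Fin (W * a r.1) ⊕ Fin 3) :=
    Function.update (fun r => Sum.inr 0) t k with hc
  have c3 : c t = k := by rw [hc, Function.update_self]
  have h1 := key c (z, 0) (w, 1) ⟨hzw, zero_ne_one⟩ (hz _) (hw _) t
  rw [c3] at h1
  exact h1

end

/-- **Purity.** -/
theorem stPU : StPU := by
  classical
  intro X _ _ K L lev a hG W V _ G τ hS
  set H := HG K a W with hH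
  -- an edge of `H`
  obtain ⟨x, _⟩ := hG.notL
  obtain ⟨z, w, hzw, -⟩ := hG.avoid x x
  have hedge : H.Adj ⟨(z, 0), Sum.inr 0⟩ ⟨(w, 1), Sum.inr 0⟩ := ⟨hzw, zero_ne_one⟩
  -- the two parts
  have h1 : #(injs H G) = #((injs H G).filter fun f => ¬ ∀ p, τ (f p) ∈ L) +
      #((injs H G).filter fun f => ∀ p, τ (f p) ∈ L) := by
    rw [add_comm]
    exact (Finset.card_filter_add_card_filter_not _).symm
  have h2 : (injs H G).filter (fun f => ¬ ∀ p, τ (f p) ∈ L) = injs H (K.comap τ) := by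
    ext f
    rw [mem_filter, mem_injs, mem_injs]
    constructor
    · rintro ⟨⟨g1, g2⟩, g3⟩
      refine ⟨g1, fun p q hpq => ?_⟩
      rcases hS.2 _ _ (g2 p q hpq) with h | h
      · exact h
      · exact absurd (all_far hG hS g2 hpq h.2.1 h.2.2) g3
    · rintro ⟨g1, g2⟩
      refine ⟨⟨g1, fun p q hpq => hS.1 _ _ (g2 p q hpq)⟩, fun g3 => ?_⟩
      exact hG.farNonadj _ (g3 _) _ (g3 _) (g2 _ _ hedge)
  have h3 : #((injs H G).filter fun f => ∀ p, τ (f p) ∈ L) =
      #(injs H (G.induce {v | τ v ∈ L})) := by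
    symm
    refine Finset.card_bij (fun g _ p => (g p : V)) ?_ ?_ ?_
    · intro g hg
      rw [mem_injs] at hg
      rw [mem_filter, mem_injs]
      exact ⟨⟨Subtype.val_injective.comp hg.1, fun p q hpq => hg.2 p q hpq⟩, fun p => (g p).2⟩
    · intro g _ g' _ h
      funext p
      exact Subtype.ext (congrFun h p)
    · intro f hf
      rw [mem_filter, mem_injs] at hf
      refine ⟨fun p => ⟨f p, hf.2 p⟩, ?_, rfl⟩
      rw [mem_injs]
      exact ⟨fun p q h => hf.1.1 (congrArg Subtype.val h), fun p q hpq => hf.1.2 p q hpq⟩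
  unfold num
  rw [h1, h2, h3]

end H78D
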