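import Mathlib
import Pool.Agent.H66.Dis.PU

set_option autoImplicit false
open Finset Fintype

/-!
# MP_c9b280_co: exactness

Adding the missing edges of the blow-up to a graph with a type function gives a `K_4`-free graph
with more copies of `H`.
-/

namespace H78D

open H67Blow (num injs)

section

variable {X : Type} [Fintype X] [DecidableEq X] {K : SimpleGraph X} {L : Finset X}
  {lev a : X → ℕ}

lemma no_K4 {V : Type} {G : SimpleGraph V} (h : G.CliqueFree 4) {x y z w : V} (h1 : G.Adj x y)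
    (h2 : G.Adj x z) (h3 : G.Adj x w) (h4 : G.Adj y z) (h5 : G.Adj y w) (h6 : G.Adj z w) :
    False := by
  classical
  refine h {x, y, z, w} ⟨?_, ?_⟩
  · intro p hp q hq hpq
    simp only [coe_insert, coe_singleton, Set.mem_insert_iff, Set.mem_singleton_iff] at hp hq
    rcases hp with rfl | rfl | rfl | rfl <;> rcases hq with rfl | rfl | rfl | rfl <;>
      first | exact absurd rfl hpq | assumption | (apply SimpleGraph.Adj.symm; assumption)
  · rw [card_insert_of_notMem, card_insert_of_notMem, card_insert_of_notMem, card_singleton]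
    · simp only [mem_singleton]; exact h6.ne
    · simp only [mem_insert, mem_singleton, not_or]; exact ⟨h4.ne, h5.ne⟩
    · simp only [mem_insert, mem_singleton, not_or]; exact ⟨h1.ne, h2.ne, h3.ne⟩

lemma exists_K4 {V : Type} {G : SimpleGraph V} (h : ¬ G.CliqueFree 4) : ∃ x y z w : V,
    G.Adj x y ∧ G.Adj x z ∧ G.Adj x w ∧ G.Adj y z ∧ G.Adj y w ∧ G.Adj z w := by
  have e := SimpleGraph.topEmbeddingOfNotCliqueFree h
  have key : ∀ i j : Fin 4, i ≠ j → G.Adj (e i) (e j) := fun i j hij =>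
    e.map_rel_iff.2 hij
  exact ⟨e 0, e 1, e 2, e 3, key _ _ (by decide), key _ _ (by decide), key _ _ (by decide),
    key _ _ (by decide), key _ _ (by decide), key _ _ (by decide)⟩

/-- The completed graph is `K_4`-free. -/
lemma union_free (hG : Good K L lev a) {V : Type} {G : SimpleGraph V} {τ : V → X}
    (hF : G.CliqueFree 4)
    (hS : ∀ u v, G.Adj u v → K.Adj (τ u) (τ v) ∨ (τ u ≠ τ v ∧ τ u ∈ L ∧ τ v ∈ L)) :
    (K.comap τ ⊔ G).CliqueFree 4 := by
  classical
  -- properties of the new edges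
  have h0 : ∀ u v, (K.comap τ ⊔ G).Adj u v →
      K.Adj (τ u) (τ v) ∨ (τ u ≠ τ v ∧ τ u ∈ L ∧ τ v ∈ L) := by
    intro u v h
    rcases h with h | h
    · exact Or.inl h
    · exact hS u v h
  have hS' : Str K L (K.comap τ ⊔ G) τ := ⟨fun u v h => Or.inl h, h0⟩
  have hin : ∀ u v, (K.comap τ ⊔ G).Adj u v → τ u ∈ L → τ v ∈ L → G.Adj u v := by
    intro u v h hu hv
    rcases h with h | h
    · exact absurd h (hG.farNonadj _ hu _ hv)
    · exact h
  have hK : ∀ u v, (K.comap τ ⊔ G).Adj u v → ¬ (τ u ∈ L ∧ τ v ∈ L) → K.Adj (τ u) (τ v) := by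
    intro u v h hn
    exact (h0 u v h).resolve_right fun h => hn h.2
  by_contra hcon
  obtain ⟨x, y, z, w, h1, h2, h3, h4, h5, h6⟩ := exists_K4 hcon
  -- two vertices in the far part
  have two : ∀ x y z w : V, (K.comap τ ⊔ G).Adj x y → (K.comap τ ⊔ G).Adj x z →
      (K.comap τ ⊔ G).Adj x w → (K.comap τ ⊔ G).Adj y z → (K.comap τ ⊔ G).Adj y w →
      (K.comap τ ⊔ G).Adj z w → ¬ (τ x ∈ L ∧ τ y ∈ L) := by
    rintro x y z w h1 h2 h3 h4 h5 h6 ⟨hx, hy⟩
    have hz := third hG hS' h1 h2 h4 hx hy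
    have hw := third hG hS' h1 h3 h5 hx hy
    exact no_K4 hF (hin _ _ h1 hx hy) (hin _ _ h2 hx hz) (hin _ _ h3 hx hw) (hin _ _ h4 hy hz)
      (hin _ _ h5 hy hw) (hin _ _ h6 hz hw)
  refine hG.k4 (τ x) (τ y) (τ z) (τ w) (hK _ _ h1 ?_) (hK _ _ h2 ?_) (hK _ _ h3 ?_)
    (hK _ _ h4 ?_) (hK _ _ h5 ?_) (hK _ _ h6 ?_)
  · exact two x y z w h1 h2 h3 h4 h5 h6
  · exact two x z y w h2 h1 h3 h4.symm h6 h5
  · exact two x w y z h3 h1 h2 h5.symm h6.symm h4
  · exact two y z x w h4 h1.symm h5 h2.symm h6 h3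
  · exact two y w x z h5 h1.symm h4 h3.symm h6.symm h2
  · exact two z w x y h6 h2.symm h4.symm h3.symm h5.symm h1

/-- If the classes are large, every edge of the blow-up is used by a copy of `H`. -/
lemma exists_copy {W : ℕ} {V : Type} [Fintype V] {τ : V → X}
    (hc : ∀ x, card (HV a W) ≤ #(univ.filter (fun v => τ v = x))) {u v : V}
    (huv : K.Adj (τ u) (τ v)) : ∃ f : HV a W → V, Function.Injective f ∧
      (∀ p q, (HG K a W).Adj p q → K.Adj (τ (f p)) (τ (f q))) ∧
      ∃ p q, (HG K a W).Adj p q ∧ f p = u ∧ f q = v := by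
  classical
  have h1 : ∀ x, ∃ g : HV a W → V, Function.Injective g ∧ ∀ p, τ (g p) = x := by
    intro x
    obtain ⟨g⟩ : Nonempty (HV a W ↪ {v // v ∈ univ.filter (fun v => τ v = x)}) := by
      refine Function.Embedding.nonempty_of_card_le ?_
      rw [Fintype.card_coe]
      exact hc x
    exact ⟨fun p => (g p : V), fun p q h => g.injective (Subtype.ext h),
      fun p => (mem_filter.1 (g p).2).2⟩
  choose g g1 g2 using h1
  set f0 : HV a W → V := fun p => g p.1.1 p with hf0
  have f0τ : ∀ p, τ (f0 p) = p.1.1 := fun p => g2 _ _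
  have f0i : Function.Injective f0 := by
    intro p q h
    have e : p.1.1 = q.1.1 := by rw [← f0τ p, ← f0τ q, h]
    have h' : g p.1.1 p = g q.1.1 q := h
    rw [← e] at h'
    exact g1 _ h'
  set p0 : HV a W := ⟨(τ u, 0), Sum.inr 0⟩ with hp0
  set q0 : HV a W := ⟨(τ v, 1), Sum.inr 0⟩ with hq0
  have hpq : (HG K a W).Adj p0 q0 := ⟨huv, zero_ne_one⟩
  have hsw : ∀ x y : V, τ x = τ y → ∀ z, τ (Equiv.swap x y z) = τ z := by
    intro x y hxy z
    rw [Equiv.swap_apply_def]
    split_ifs with h1 h2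
    · rw [h1, hxy]
    · rw [h2, hxy]
    · rfl
  set f1 : HV a W → V := fun p => Equiv.swap (f0 p0) u (f0 p) with hf1
  have f1i : Function.Injective f1 := (Equiv.injective _).comp f0i
  have f1τ : ∀ p, τ (f1 p) = p.1.1 := fun p => by
    rw [hf1]
    simp only
    rw [hsw _ _ (f0τ p0), f0τ]
  have f1p : f1 p0 = u := by rw [hf1]; simp
  set f2 : HV a W → V := fun p => Equiv.swap (f1 q0) v (f1 p) with hf2
  have f2i : Function.Injective f2 := (Equiv.injective _).comp f1i
  have f2τ : ∀ p, τ (f2 p) = p.1.1 := fun p => by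
    rw [hf2]
    simp only
    rw [hsw _ _ (f1τ q0), f1τ]
  have f2q : f2 q0 = v := by rw [hf2]; simp
  have f2p : f2 p0 = u := by
    rw [hf2]
    simp only
    rw [f1p]
    refine Equiv.swap_apply_of_ne_of_ne ?_ ?_
    · intro h
      rw [← f1p] at h
      exact (HG K a W).ne_of_adj hpq (f1i h)
    · rintro rfl
      exact K.loopless.irrefl _ huv
  exact ⟨f2, f2i, fun p q h => by rw [f2τ, f2τ]; exact h.1, p0, q0, hpq, f2p, f2q⟩

end

/-- **Exactness.** -/
theorem stEX : StEX := by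
  classical
  intro X _ _ K L lev a hG W V _ G τ hE hS hc u v huv
  by_contra hn
  have hc' : ∀ x, card (HV a W) ≤ #(univ.filter (fun v => τ v = x)) := by
    intro x
    convert hc x
  obtain ⟨f, f1, f2, p, q, hpq, hp, hq⟩ := exists_copy hc' huv
  have h1 := hE.2 (K.comap τ ⊔ G) (union_free hG hE.1 hS)
  have h2 : injs (HG K a W) G ⊂ injs (HG K a W) (K.comap τ ⊔ G) := by
    rw [Finset.ssubset_iff_of_subset]
    · refine ⟨f, ?_, ?_⟩
      · rw [mem_injs]
        exact ⟨f1, fun p q h => Or.inl (f2 p q h)⟩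
      · rw [mem_injs]
        rintro ⟨-, h3⟩
        have h4 := h3 p q hpq
        rw [hp, hq] at h4
        exact hn h4
    · intro g hg
      rw [mem_injs] at hg ⊢
      exact ⟨hg.1, fun p q h => Or.inr (hg.2 p q h)⟩
  exact absurd (Finset.card_lt_card h2) (not_lt.2 h1)

end H78D
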