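import Mathlib
import Pool.Agent.H66.Dis.EX

set_option autoImplicit false
open Finset Fintype

/-!
# MP_c9b280_co: transplant

The graph on the far part of an extremal graph is extremal.
-/

namespace H78D

open H67Blow (num injs)

section

variable {X : Type} [Fintype X] [DecidableEq X] {K : SimpleGraph X} {L : Finset X}
  {lev a : X → ℕ}

/-- Extremal graphs exist. -/
lemma exists_ext {U : Type} [Fintype U] (H : SimpleGraph U) (V : Type) [Fintype V] :
    ∃ G : SimpleGraph V, Ext H G := by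
  classical
  haveI : Nonempty {G : SimpleGraph V // G.CliqueFree 4} :=
    ⟨⟨⊥, SimpleGraph.cliqueFree_bot (by norm_num)⟩⟩
  obtain ⟨G, hG⟩ := Finite.exists_max (fun G : {G : SimpleGraph V // G.CliqueFree 4} => num H G.1)
  exact ⟨G.1, G.2, fun G' h => hG ⟨G', h⟩⟩

lemma num_comap_equiv {U V V' : Type} [Fintype U] [Fintype V] [Fintype V'] (H : SimpleGraph U)
    (G : SimpleGraph V) (e : V' ≃ V) : num H (G.comap e) = num H G := by
  classical
  unfold num
  refine Finset.card_bij (fun g _ p => e (g p)) ?_ ?_ ?_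
  · intro g hg
    rw [mem_injs] at hg ⊢
    exact ⟨e.injective.comp hg.1, fun p q h => hg.2 p q h⟩
  · intro g _ g' _ h
    funext p
    exact e.injective (congrFun h p)
  · intro f hf
    rw [mem_injs] at hf
    refine ⟨fun p => e.symm (f p), ?_, ?_⟩
    · rw [mem_injs]
      refine ⟨e.symm.injective.comp hf.1, fun p q h => ?_⟩
      change G.Adj (e (e.symm (f p))) (e (e.symm (f q)))
      rw [e.apply_symm_apply, e.apply_symm_apply]
      exact hf.2 p q h
    · funext p
      simp

/-- Functions with equal fibre sizes differ by a permutation. -/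
lemma equiv_of_fibres {α β : Type*} [Fintype α] [DecidableEq β] (f g : α → β)
    (h : ∀ b, #(univ.filter (fun a => f a = b)) = #(univ.filter (fun a => g a = b))) :
    ∃ e : α ≃ α, ∀ x, f (e x) = g x := by
  have h1 : ∀ b, Nonempty ({x // g x = b} ≃ {x // f x = b}) := by
    intro b
    refine ⟨Fintype.equivOfCardEq ?_⟩
    rw [Fintype.card_subtype, Fintype.card_subtype]
    exact (h b).symm
  have e1 : ∀ b, ({x // g x = b} ≃ {x // f x = b}) := fun b => (h1 b).some
  refine ⟨(Equiv.sigmaFiberEquiv g).symm.trans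
    ((Equiv.sigmaCongrRight e1).trans (Equiv.sigmaFiberEquiv f)), fun x => ?_⟩
  exact (e1 (g x) ⟨x, rfl⟩).2

omit [Fintype X] in
/-- Colourings with prescribed class sizes. -/
lemma exists_col {α : Type*} [DecidableEq α] (x0 : X) (L : Finset X) (z : X → ℕ) :
    ∀ F : Finset α, ∑ T ∈ L, z T = #F → ∃ c : α → X, (∀ v ∈ F, c v ∈ L) ∧
      ∀ T ∈ L, #(F.filter (fun v => c v = T)) = z T := by
  induction L using Finset.induction_on with
  | empty =>
    intro F hF
    rw [Finset.sum_empty] at hF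
    have h1 : F = ∅ := Finset.card_eq_zero.1 hF.symm
    subst h1
    exact ⟨fun _ => x0, by simp, by simp⟩
  | insert T0 L hT ih =>
    intro F hF
    rw [Finset.sum_insert hT] at hF
    obtain ⟨F0, h1, h2⟩ := Finset.exists_subset_card_eq (s := F) (n := z T0) (by omega)
    obtain ⟨c, h3, h4⟩ := ih (F \ F0) (by
      rw [Finset.card_sdiff_of_subset h1]
      omega)
    obtain ⟨c', k1, k2⟩ : ∃ c' : α → X, (∀ v ∈ F0, c' v = T0) ∧ ∀ v, v ∉ F0 → c' v = c v :=
      ⟨fun v => if v ∈ F0 then T0 else c v, fun v hv => if_pos hv, fun v hv => if_neg hv⟩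
    refine ⟨c', ?_, ?_⟩
    · intro v hv
      by_cases h5 : v ∈ F0
      · rw [k1 v h5]; exact mem_insert_self _ _
      · rw [k2 v h5]; exact mem_insert_of_mem (h3 v (mem_sdiff.2 ⟨hv, h5⟩))
    · intro T hT'
      by_cases hTT : T = T0
      · subst hTT
        rw [← h2]
        congr 1
        ext v
        rw [mem_filter]
        constructor
        · rintro ⟨h5, h6⟩
          by_contra h7
          rw [k2 v h7] at h6
          exact hT (h6 ▸ h3 v (mem_sdiff.2 ⟨h5, h7⟩))
        · intro h5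
          exact ⟨h1 h5, k1 v h5⟩
      · have hT1 : T ∈ L := (mem_insert.1 hT').resolve_left hTT
        rw [← h4 T hT1]
        congr 1
        ext v
        rw [mem_filter, mem_filter, mem_sdiff]
        constructor
        · rintro ⟨h5, h6⟩
          by_cases h7 : v ∈ F0
          · rw [k1 v h7] at h6
            exact absurd h6.symm hTT
          · rw [k2 v h7] at h6
            exact ⟨⟨h5, h7⟩, h6⟩
        · rintro ⟨⟨h5, h7⟩, h6⟩
          exact ⟨h5, by rw [k2 v h7]; exact h6⟩

/-- The combinatorial part of the transplant: an extremal graph on the far part can be arranged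
compatibly with the types. -/
lemma transplant (hG : Good K L lev a) {W : ℕ} {V : Type} [Fintype V] {G : SimpleGraph V}
    {τ : V → X} (hE : Ext (HG K a W) G) (hS : Str K L G τ)
    {G₂ : SimpleGraph {v // τ v ∈ L}} (hF : G₂.CliqueFree 4)
    (hty : ∀ u v, G₂.Adj u v → τ u ≠ τ v) :
    num (HG K a W) G₂ ≤ num (HG K a W) (G.induce {v | τ v ∈ L}) := by
  classical
  set G0 : SimpleGraph V :=
    { Adj := fun u v => ∃ (hu : τ u ∈ L) (hv : τ v ∈ L), G₂.Adj ⟨u, hu⟩ ⟨v, hv⟩
      symm := ⟨fun u v ⟨hu, hv, h⟩ => ⟨hv, hu, h.symm⟩⟩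
      loopless := ⟨fun u ⟨hu, _, h⟩ => G₂.loopless.irrefl _ h⟩ } with hG0
  have h0 : ∀ u v, G0.Adj u v ↔ ∃ (hu : τ u ∈ L) (hv : τ v ∈ L), G₂.Adj ⟨u, hu⟩ ⟨v, hv⟩ :=
    fun u v => Iff.rfl
  have h1 : G0.CliqueFree 4 := by
    by_contra hcon
    obtain ⟨x, y, z, w, h1, h2, h3, h4, h5, h6⟩ := exists_K4 hcon
    obtain ⟨hx, hy, k1⟩ := (h0 _ _).1 h1
    obtain ⟨_, hz, k2⟩ := (h0 _ _).1 h2
    obtain ⟨_, hw, k3⟩ := (h0 _ _).1 h3
    obtain ⟨_, _, k4⟩ := (h0 _ _).1 h4
    obtain ⟨_, _, k5⟩ := (h0 _ _).1 h5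
    obtain ⟨_, _, k6⟩ := (h0 _ _).1 h6
    exact no_K4 hF k1 k2 k3 k4 k5 k6
  have h2 : ∀ u v, G0.Adj u v → K.Adj (τ u) (τ v) ∨ (τ u ≠ τ v ∧ τ u ∈ L ∧ τ v ∈ L) := by
    intro u v h
    obtain ⟨hu, hv, h⟩ := (h0 _ _).1 h
    exact Or.inr ⟨hty _ _ h, hu, hv⟩
  have h3 := union_free hG h1 h2
  have h4 : Str K L (K.comap τ ⊔ G0) τ := by
    refine ⟨fun u v h => Or.inl h, fun u v h => ?_⟩
    rcases h with h | h
    · exact Or.inl h
    · exact h2 u v h
  have h5 : (K.comap τ ⊔ G0).induce {v | τ v ∈ L} = G₂ := by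
    ext u v
    constructor
    · rintro (h | h)
      · exact absurd h (hG.farNonadj _ u.2 _ v.2)
      · obtain ⟨_, _, h⟩ := (h0 _ _).1 h
        exact h
    · intro h
      exact Or.inr ⟨u.2, v.2, h⟩
  have h6 := stPU X K L lev a hG W V G τ hS
  have h7 := stPU X K L lev a hG W V (K.comap τ ⊔ G0) τ h4
  have h8 := hE.2 _ h3
  have h9 : num (HG K a W) ((K.comap τ ⊔ G0).induce {v | τ v ∈ L}) = num (HG K a W) G₂ := by
    rw [h5]
  omega

end

/-- **Transplant.** -/
theorem stTR : StTR := by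
  classical
  intro X _ _ K L lev a hG hFl
  obtain ⟨Al, hAl, δF, hδF, hz⟩ := hFl
  have htot : 0 < tot a := by
    obtain ⟨x, _⟩ := hG.notL
    exact lt_of_lt_of_le (hG.apos x) (Finset.single_le_sum (f := a) (fun _ _ => Nat.zero_le _)
      (mem_univ x))
  have hth : ∀ x, 0 < th a x := fun x => by
    unfold th
    have := hG.apos x
    positivity
  set θL : ℝ := ∑ x ∈ L, th a x with hθL
  have hθ : 0 < θL := Finset.sum_pos (fun x _ => hth x) hG.Lne
  have hth1 : ∀ x ∈ L, th a x ≤ θL := fun x hx =>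
    Finset.single_le_sum (f := th a) (fun y _ => (hth y).le) hx
  set c : ℝ := (#L : ℝ) with hc
  have hc1 : 1 ≤ c := by
    rw [hc]
    exact_mod_cast hG.Lne.card_pos
  have hc0 : 0 < c := by linarith
  set δ : ℝ := min δF (min (θL / (2 * c)) (δF * θL / (2 * (1 + c)))) with hδ
  have δ0 : 0 < δ := lt_min hδF (lt_min (by positivity) (by positivity))
  have d1 : δ ≤ δF := min_le_left _ _
  have d2 : δ ≤ θL / (2 * c) := (min_le_right _ _).trans (min_le_left _ _)
  have d3 : δ ≤ δF * θL / (2 * (1 + c)) := (min_le_right _ _).trans (min_le_right _ _)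
  rw [le_div_iff₀ (by positivity)] at d2 d3
  refine ⟨δ, δ0, fun W n₀ hyp => ⟨⌈2 * (n₀ : ℝ) / θL⌉₊, ?_⟩⟩
  intro V _ hn G τ hE hS hfib
  -- the size of the far part
  set m : ℕ := card {v // τ v ∈ L} with hm
  set n : ℕ := card V with hnn
  have hm1 : m = ∑ T ∈ L, #(univ.filter (fun v => τ v = T)) := by
    rw [hm, Fintype.card_subtype]
    have h1 : (univ.filter (fun v => τ v ∈ L)) =
        L.biUnion (fun T => univ.filter (fun v => τ v = T)) := by
      ext v
      simp
    rw [h1, Finset.card_biUnion]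
    intro T _ T' _ hTT
    rw [Function.onFun, Finset.disjoint_left]
    intro v h2 h3
    exact hTT ((mem_filter.1 h2).2.symm.trans (mem_filter.1 h3).2)
  have hm2 : |(m : ℝ) - θL * n| ≤ c * (δ * n) := by
    rw [hm1, hθL]
    push_cast
    rw [Finset.sum_mul, ← Finset.sum_sub_distrib]
    refine (Finset.abs_sum_le_sum_abs _ _).trans ?_
    have h1 : ∀ T ∈ L, |(#(univ.filter (fun v => τ v = T)) : ℝ) - th a T * n| ≤ δ * n := by
      intro T _
      have := hfib T
      convert this
    refine (Finset.sum_le_card_nsmul _ _ _ h1).trans ?_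
    rw [nsmul_eq_mul]
  have hn0 : (0 : ℝ) ≤ n := Nat.cast_nonneg _
  have hm3 : θL / 2 * n ≤ m := by
    have h1 := (abs_le.1 hm2).1
    have h2 : δ * (2 * c) * n ≤ θL * n := mul_le_mul_of_nonneg_right d2 hn0
    nlinarith
  have hmn : n₀ ≤ m := by
    have h1 : 2 * (n₀ : ℝ) / θL ≤ n := Nat.ceil_le.1 hn
    rw [div_le_iff₀ hθ] at h1
    have h2 : (n₀ : ℝ) ≤ m := by nlinarith
    exact_mod_cast h2
  -- the extremal graph on the far part
  obtain ⟨G₁, hG₁⟩ := exists_ext (HG K a W) {v // τ v ∈ L}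
  obtain ⟨τ₁, hS₁, hfib₁⟩ := hyp {v // τ v ∈ L} hmn G₁ hG₁
  obtain ⟨z, z1, z2, z3⟩ := hz m (fun x => #(univ.filter (fun v => τ₁ v = x)))
    (fun T => #(univ.filter (fun v => τ v = T))) (by
      rw [hm, ← Finset.card_univ]
      exact (Finset.card_eq_sum_card_fiberwise (fun v _ => mem_univ (τ₁ v))).symm) hm1.symm
    (by
      intro x
      have h1 := hfib₁ x
      have h2 : δ * (m : ℝ) ≤ δF * m := mul_le_mul_of_nonneg_right d1 (Nat.cast_nonneg _)
      refine le_trans ?_ h2
      convert h1)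
    (by
      intro T hT
      have h1 := hfib T
      have h1' : |(#(univ.filter (fun v => τ v = T)) : ℝ) - th a T * n| ≤ δ * n := by
        convert h1
      have h2 : th a T / θL * m = th a T * n + th a T / θL * (m - θL * n) := by
        field_simp
        ring
      have h3 : |th a T / θL * (m - θL * n)| ≤ c * (δ * n) := by
        rw [abs_mul, abs_of_pos (div_pos (hth T) hθ)]
        calc th a T / θL * |(m : ℝ) - θL * n| ≤ 1 * |(m : ℝ) - θL * n| :=
              mul_le_mul_of_nonneg_right ((div_le_one hθ).2 (hth1 T hT)) (abs_nonneg _)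
          _ ≤ c * (δ * n) := by rw [one_mul]; exact hm2
      rw [h2]
      have h4 : |(#(univ.filter (fun v => τ v = T)) : ℝ) -
          (th a T * n + th a T / θL * (m - θL * n))| ≤ δ * n + c * (δ * n) := by
        rw [← sub_sub]
        exact (abs_sub _ _).trans (add_le_add h1' h3)
      refine h4.trans ?_
      have h5 : δ * (2 * (1 + c)) * n ≤ δF * θL * n := mul_le_mul_of_nonneg_right d3 hn0
      have h6 : δF * (θL / 2 * n) ≤ δF * m := mul_le_mul_of_nonneg_left hm3 hδF.le
      nlinarith)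
  -- the colouring
  have hcol : ∀ x, ∃ cx : {v // τ v ∈ L} → X, (∀ v ∈ univ.filter (fun v => τ₁ v = x), cx v ∈ L) ∧
      ∀ T ∈ L, #((univ.filter (fun v => τ₁ v = x)).filter (fun v => cx v = T)) = z x T :=
    fun x => exists_col x L (z x) _ (z1 x)
  choose cx c1 c2 using hcol
  set col : {v // τ v ∈ L} → X := fun v => cx (τ₁ v) v with hcolD
  have hcL : ∀ v, col v ∈ L := fun v => c1 _ v (mem_filter.2 ⟨mem_univ _, rfl⟩)
  have hcz : ∀ x, ∀ T ∈ L, #(univ.filter (fun v => τ₁ v = x ∧ col v = T)) = z x T := by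
    intro x T hT
    rw [← c2 x T hT]
    congr 1
    ext v
    rw [mem_filter, mem_filter, mem_filter]
    constructor
    · rintro ⟨-, h1, h2⟩
      refine ⟨⟨mem_univ _, h1⟩, ?_⟩
      rw [← h1]; exact h2
    · rintro ⟨⟨-, h1⟩, h2⟩
      refine ⟨mem_univ _, h1, ?_⟩
      rw [hcolD]
      simp only
      rw [h1]; exact h2
  have hAl' : ∀ v, Al (τ₁ v) (col v) := by
    intro v
    refine z3 _ _ (hcL v) ?_
    rw [← hcz _ _ (hcL v)]
    exact Finset.card_ne_zero.2 ⟨v, mem_filter.2 ⟨mem_univ _, rfl, rfl⟩⟩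
  have hnoedge : ∀ u v, G₁.Adj u v → col u ≠ col v := by
    intro u v h hcc
    have h1 := hAl' v
    rw [← hcc] at h1
    obtain ⟨h2, h3⟩ := hAl _ _ _ (hAl' u) h1
    rcases hS₁.2 u v h with h4 | h4
    · exact h2 h4
    · exact h4.1 (h3 h4.2.1 h4.2.2)
  -- the permutation
  obtain ⟨e, he⟩ := equiv_of_fibres col (fun v : {v // τ v ∈ L} => τ v) (by
    intro T
    by_cases hT : T ∈ L
    · have h1 : #(univ.filter (fun v => col v = T)) = ∑ x, z x T := by
        rw [Finset.card_eq_sum_card_fiberwise (f := τ₁) (t := univ) (fun v _ => mem_univ (τ₁ v))]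
        refine Finset.sum_congr rfl fun x _ => ?_
        rw [← hcz x T hT]
        congr 1
        ext v
        simp only [mem_filter, mem_univ, true_and]
        tauto
      rw [h1, z2 T hT]
      symm
      refine Finset.card_bij (fun (v : {v // τ v ∈ L}) _ => (v : V)) ?_ ?_ ?_
      · intro v hv
        rw [mem_filter] at hv ⊢
        exact ⟨mem_univ _, hv.2⟩
      · intro v _ v' _ h
        exact Subtype.ext h
      · intro v hv
        rw [mem_filter] at hv
        exact ⟨⟨v, by rw [hv.2]; exact hT⟩, mem_filter.2 ⟨mem_univ _, hv.2⟩, rfl⟩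
    · rw [Finset.filter_eq_empty_iff.2, Finset.filter_eq_empty_iff.2]
      · intro v _ h
        exact hT (h ▸ v.2)
      · intro v _ h
        exact hT (h ▸ hcL v))
  have h1 := transplant hG hE hS (G₂ := G₁.comap e)
    (SimpleGraph.CliqueFree.comap ⟨(SimpleGraph.Embedding.comap e.toEmbedding G₁).toCopy⟩ hG₁.1)
    (fun u v h => by
      have h2 := hnoedge _ _ h
      rw [he, he] at h2
      exact h2)
  rw [num_comap_equiv] at h1
  refine ⟨SimpleGraph.CliqueFree.comap ⟨(SimpleGraph.Embedding.induce _).toCopy⟩ hE.1,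
    fun G' hG' => ?_⟩
  refine le_trans ?_ h1
  exact hG₁.2 G' hG'

end H78D
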